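import Pool.Agent.Helper61.CAR.GoalsQ

/-!
# Packet CAR-MULT: almost multiplicativity of window sums
-/

set_option autoImplicit false

open scoped ComplexOrder ZeroAtInfty InnerProductSpace ComplexConjugate Topology

namespace Pool.Agent.Helper98.CAR

open Pool.Agent.Helper61.CAR Pool.Agent.Helper34.CAR

lemma card_near {n : ℕ} (i : Fin n) :
    (Finset.univ.filter fun j : Fin n => j ≠ i ∧ (i : ℕ) ≤ j + 1 ∧ (j : ℕ) ≤ i + 1).card ≤ 2 := by
  classical
  have h : (Finset.univ.filter fun j : Fin n =>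
      j ≠ i ∧ (i : ℕ) ≤ j + 1 ∧ (j : ℕ) ≤ i + 1).card ≤
      ({(i : ℕ) + 1, (i : ℕ) - 1} : Finset ℕ).card := by
    refine Finset.card_le_card_of_injOn (fun j => (j : ℕ)) ?_ ?_
    · intro j hj
      simp only [Finset.coe_filter, Finset.mem_univ, true_and, Set.mem_setOf_eq] at hj
      obtain ⟨h1, h2, h3⟩ := hj
      have h4 : (j : ℕ) ≠ i := fun h => h1 (Fin.ext h)
      simp only [Finset.coe_insert, Finset.coe_singleton, Set.mem_insert_iff,
        Set.mem_singleton_iff]
      omega
    · intro a _ b _ hab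
      exact Fin.ext hab
  exact h.trans Finset.card_le_two

section ring

variable {R : Type} [NormedRing R]

lemma norm_mul_le_of_le_one {x y : R} {c : ℝ} (hx : ‖x‖ ≤ 1) (hy : ‖y‖ ≤ c) (_hc : 0 ≤ c) :
    ‖x * y‖ ≤ c :=
  (norm_mul_le x y).trans (by nlinarith [norm_nonneg x, norm_nonneg y])

lemma norm_mul_le_of_le_one' {x y : R} {c : ℝ} (hx : ‖x‖ ≤ c) (hy : ‖y‖ ≤ 1) (_hc : 0 ≤ c) :
    ‖x * y‖ ≤ c :=
  (norm_mul_le x y).trans (by nlinarith [norm_nonneg x, norm_nonneg y])

/-- The error of one summand. -/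
lemma one_step {n : ℕ} (C b : Fin n → R) (d e : ℝ) (hd : 0 ≤ d) (he : 0 ≤ e)
    (h1 : ‖(1 : R)‖ ≤ 1) (hP : ‖∑ j, C j * C j‖ ≤ 1) (hC : ∀ i, ‖C i‖ ≤ 1)
    (comm : ∀ i j, C i * C j = C j * C i)
    (far : ∀ i j : Fin n, (i : ℕ) + 2 ≤ j → C i * C j = 0)
    (cb : ∀ i j, ‖C i * b j - b j * C i‖ ≤ d)
    (near : ∀ i j : Fin n, (i : ℕ) ≤ j + 1 → (j : ℕ) ≤ i + 1 → ‖b i - b j‖ ≤ e)
    (last : ∀ i, C i * (1 - ∑ j, C j * C j) = 0 ∨ ‖b i‖ ≤ e) (i : Fin n) :
    ∃ Z E : R, b i * C i - C i * ∑ j, C j * b j * C j = -(Z * C i) + E ∧ ‖Z‖ ≤ 4 * e ∧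
      ‖E‖ ≤ 6 * n * d := by
  classical
  have hn : (1 : ℝ) ≤ n := by
    have : 0 < n := Fin.pos i
    exact_mod_cast this
  set P : R := ∑ j, C j * C j with hPdef
  have cb' : ∀ i j, ‖b j * C i - C i * b j‖ ≤ d := fun i j => by
    rw [norm_sub_rev]; exact cb i j
  have hCC : ∀ i j, ‖C i * C j‖ ≤ 1 := fun i j => norm_mul_le_of_le_one (hC i) (hC j) zero_le_one
  have far' : ∀ j : Fin n, ¬((i : ℕ) ≤ j + 1 ∧ (j : ℕ) ≤ i + 1) → C j * C i = 0 := by
    intro j hj
    by_cases h : (i : ℕ) + 2 ≤ j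
    · rw [← comm i j]; exact far i j h
    · exact far j i (by omega)
  -- first replacement
  let E1 : R := ∑ j, (C i * C j * (b j * C j - C j * b j) + C j * C j * (C i * b j - b j * C i))
  have hE1 : ‖E1‖ ≤ n * (2 * d) := by
    have : ∀ j ∈ (Finset.univ : Finset (Fin n)),
        ‖C i * C j * (b j * C j - C j * b j) + C j * C j * (C i * b j - b j * C i)‖ ≤ 2 * d := by
      intro j _
      refine (norm_add_le _ _).trans ?_
      have u := norm_mul_le_of_le_one (hCC i j) (cb' j j) hd
      have v := norm_mul_le_of_le_one (hCC j j) (cb i j) hd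
      linarith
    refine (norm_sum_le_of_le _ this).trans ?_
    simp
  have e1 : C i * ∑ j, C j * b j * C j = (∑ j, C j * C j * b j * C i) + E1 := by
    rw [Finset.mul_sum, ← Finset.sum_add_distrib]
    refine Finset.sum_congr rfl fun j _ => ?_
    have h : C i * C j * C j = C j * C j * C i := by
      rw [comm i j, mul_assoc, comm i j, ← mul_assoc]
    have h' : C i * C j * (C j * b j) = C j * C j * (C i * b j) := by
      rw [← mul_assoc, h, mul_assoc]
    rw [mul_sub, mul_sub, h']
    simp only [mul_assoc]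
    abel
  -- the near and far parts
  let X : R := ∑ j : Fin n, if (i : ℕ) ≤ j + 1 ∧ (j : ℕ) ≤ i + 1 then C j * C j * (b j - b i) else 0
  let E2 : R := ∑ j : Fin n, if (i : ℕ) ≤ j + 1 ∧ (j : ℕ) ≤ i + 1 then 0 else
    C j * C j * (b j * C i - C i * b j) - C j * C j * (b i * C i - C i * b i)
  have hX : ‖X‖ ≤ 2 * e := by
    have h : ∀ j ∈ (Finset.univ : Finset (Fin n)),
        ‖if (i : ℕ) ≤ j + 1 ∧ (j : ℕ) ≤ i + 1 then C j * C j * (b j - b i) else (0 : R)‖ ≤
          if j ≠ i ∧ (i : ℕ) ≤ j + 1 ∧ (j : ℕ) ≤ i + 1 then e else 0 := by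
      intro j _
      by_cases hji : j = i
      · subst hji; simp
      · by_cases hj : (i : ℕ) ≤ j + 1 ∧ (j : ℕ) ≤ i + 1
        · rw [if_pos hj, if_pos ⟨hji, hj⟩]
          exact norm_mul_le_of_le_one (hCC j j) (near j i hj.2 hj.1) he
        · rw [if_neg hj, if_neg (fun h => hj h.2)]; simp
    refine (norm_sum_le_of_le _ h).trans ?_
    rw [← Finset.sum_filter, Finset.sum_const, nsmul_eq_mul]
    have := card_near i
    have h2 : ((Finset.univ.filter fun j : Fin n =>
      j ≠ i ∧ (i : ℕ) ≤ j + 1 ∧ (j : ℕ) ≤ i + 1).card : ℝ) ≤ 2 := by exact_mod_cast this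
    exact mul_le_mul_of_nonneg_right h2 he
  have hE2 : ‖E2‖ ≤ n * (2 * d) := by
    have : ∀ j ∈ (Finset.univ : Finset (Fin n)),
        ‖if (i : ℕ) ≤ j + 1 ∧ (j : ℕ) ≤ i + 1 then (0 : R) else
          C j * C j * (b j * C i - C i * b j) - C j * C j * (b i * C i - C i * b i)‖ ≤ 2 * d := by
      intro j _
      split_ifs
      · simp [hd]
      · refine (norm_sub_le _ _).trans ?_
        have u := norm_mul_le_of_le_one (hCC j j) (cb' i j) hd
        have v := norm_mul_le_of_le_one (hCC j j) (cb' i i) hd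
        linarith
    refine (norm_sum_le_of_le _ this).trans ?_
    simp
  have e2 : (∑ j, C j * C j * b j * C i) = X * C i + P * b i * C i + E2 := by
    rw [hPdef, Finset.sum_mul, Finset.sum_mul, Finset.sum_mul, ← Finset.sum_add_distrib,
      ← Finset.sum_add_distrib]
    refine Finset.sum_congr rfl fun j _ => ?_
    split_ifs with hj
    · rw [mul_sub, sub_mul]; abel
    · have h := far' j hj
      have hc : ∀ x : R, C j * C j * (C i * x) = 0 := by
        intro x
        rw [← mul_assoc, mul_assoc (C j) (C j) (C i), h]; simp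
      rw [mul_sub, mul_sub, hc, hc]
      simp only [mul_assoc]
      abel_nf
      simp
  rcases last i with h | h
  · -- `C i * (1 - P) = 0`
    let E3 : R := P * (b i * C i - C i * b i) - (b i * C i - C i * b i)
    have hE3 : ‖E3‖ ≤ 2 * d := by
      refine (norm_sub_le _ _).trans ?_
      have u := norm_mul_le_of_le_one hP (cb' i i) hd
      have v := cb' i i
      linarith
    have hPC : P * C i = C i := by
      have h5 : P * C i = C i * P := by
        rw [hPdef, Finset.sum_mul, Finset.mul_sum]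
        refine Finset.sum_congr rfl fun j _ => ?_
        rw [mul_assoc, comm j i, ← mul_assoc, comm j i, mul_assoc]
      have h6 : C i * P = C i := by
        rw [mul_sub, mul_one, sub_eq_zero] at h
        exact h.symm
      rw [h5, h6]
    refine ⟨X, -(E1 + E2 + E3), ?_, by linarith, ?_⟩
    · rw [e1, e2]
      have : P * b i * C i = b i * C i + E3 := by
        simp only [E3]
        rw [mul_sub, ← mul_assoc P (C i), hPC, mul_assoc]
        abel
      rw [this]; abel
    · rw [norm_neg]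
      refine (norm_add_le _ _).trans ?_
      have := norm_add_le E1 E2
      nlinarith
  · refine ⟨X + (P - 1) * b i, -(E1 + E2), ?_, ?_, ?_⟩
    · rw [e1, e2]
      have : P * b i * C i = b i * C i + (P - 1) * b i * C i := by
        rw [sub_mul, sub_mul, one_mul]; abel
      rw [this, add_mul]; abel
    · refine (norm_add_le _ _).trans ?_
      have h7 : ‖P - 1‖ ≤ 2 := (norm_sub_le _ _).trans (by linarith)
      have h8 : ‖(P - 1) * b i‖ ≤ 2 * e :=
        (norm_mul_le _ _).trans (by
          have := norm_nonneg (P - 1)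
          have := norm_nonneg (b i)
          nlinarith)
      linarith
    · rw [norm_neg]
      refine (norm_add_le _ _).trans ?_
      nlinarith

end ring

theorem mult (hWB : S_WB) : S_MULT := by
  intro H _ _ _ n C a b d e hd he sa comm hsum far ha hb _ca cb near last
  have hC : ∀ i, ‖C i‖ ≤ 1 := by
    intro i
    refine ContinuousLinearMap.opNorm_le_bound _ zero_le_one fun x => ?_
    have h1 : ‖C i x‖ ^ 2 ≤ ∑ j, ‖C j x‖ ^ 2 :=
      Finset.single_le_sum (f := fun j => ‖C j x‖ ^ 2) (fun j _ => sq_nonneg _) (Finset.mem_univ i)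
    have h2 := h1.trans (hsum x)
    have h3 := abs_le_of_sq_le_sq h2 (norm_nonneg x)
    rw [one_mul]
    exact (abs_le.1 h3).2
  have h1 : ‖(1 : H →L[ℂ] H)‖ ≤ 1 := ContinuousLinearMap.norm_id_le
  have hP : ‖∑ j, C j * C j‖ ≤ 1 := by
    have := hWB H n C (fun _ => 1) 1 zero_le_one sa hsum (fun _ => h1)
    simpa using this
  choose Z E hZE hZ hE using
    one_step C b d e hd he h1 hP hC comm far cb near last
  have key : (∑ i, C i * (a i * b i) * C i) - (∑ i, C i * a i * C i) * ∑ j, C j * b j * C j =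
      -(∑ i, C i * (a i * Z i) * C i) + ∑ i, C i * a i * E i := by
    rw [Finset.sum_mul, ← Finset.sum_sub_distrib, ← Finset.sum_neg_distrib,
      ← Finset.sum_add_distrib]
    refine Finset.sum_congr rfl fun i _ => ?_
    have h := congrArg (fun x => C i * a i * x) (hZE i)
    simp only [mul_sub, mul_add, mul_neg] at h
    calc C i * (a i * b i) * C i - C i * a i * C i * ∑ j, C j * b j * C j
        = C i * a i * (b i * C i) - C i * a i * (C i * ∑ j, C j * b j * C j) := by
          simp only [mul_assoc]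
      _ = -(C i * a i * (Z i * C i)) + C i * a i * E i := h
      _ = _ := by simp only [mul_assoc]
  rw [key]
  have hz : ‖∑ i, C i * (a i * Z i) * C i‖ ≤ 4 * e :=
    hWB H n C (fun i => a i * Z i) (4 * e) (by linarith) sa hsum
      (fun i => norm_mul_le_of_le_one (ha i) (hZ i) (by linarith))
  have hnn : (0 : ℝ) ≤ 6 * n * d := by positivity
  have hee : ‖∑ i, C i * a i * E i‖ ≤ n * (6 * n * d) := by
    have : ∀ i ∈ (Finset.univ : Finset (Fin n)), ‖C i * a i * E i‖ ≤ 6 * n * d := by
      intro i _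
      exact norm_mul_le_of_le_one (norm_mul_le_of_le_one (hC i) (ha i) zero_le_one) (hE i) hnn
    refine (norm_sum_le_of_le _ this).trans ?_
    simp
  refine (norm_add_le _ _).trans ?_
  rw [norm_neg]
  have : (n : ℝ) * (6 * n * d) ≤ 10 * (n : ℝ) ^ 2 * d := by
    have : 0 ≤ (n : ℝ) ^ 2 * d := by positivity
    nlinarith
  linarith

end Pool.Agent.Helper98.CAR
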