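import Pool.Agent.Helper34.CAR.GoalsA

/-!
# Packet CAR-ABS: absorption without loss
-/

set_option autoImplicit false

open scoped ComplexOrder ZeroAtInfty

namespace Pool.Agent.Helper98.CAR

open Pool.Agent.Helper34.CAR

section rules

variable {R : Type} [CStarAlgebra R] {J : Type} [Fintype J] [DecidableEq J] {m : ℕ}

lemma slot_none_none (x : R) : (slot (J := J) m x) none none = x := rfl
lemma slot_some_left (x : R) (a : Fin m × J) (y : Option (Fin m × J)) :
    (slot (J := J) m x) (some a) y = 0 := by cases y <;> rfl
lemma slot_some_right (x : R) (a : Fin m × J) (y : Option (Fin m × J)) :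
    (slot (J := J) m x) y (some a) = 0 := by cases y <;> rfl

lemma blk_none_left (j : Fin m) (a : CStarMatrix J J ℂ) (y : Option (Fin m × J)) :
    (blk (R := R) j a) none y = 0 := by cases y <;> rfl
lemma blk_none_right (j : Fin m) (a : CStarMatrix J J ℂ) (y : Option (Fin m × J)) :
    (blk (R := R) j a) y none = 0 := by cases y <;> rfl
lemma blk_some_some (j : Fin m) (a : CStarMatrix J J ℂ) (i i' : Fin m) (p q : J) :
    (blk (R := R) j a) (some (i, p)) (some (i', q)) =
      if i = j ∧ i' = j then algebraMap ℂ R (a p q) else 0 := rfl

lemma colm_some_none (j : Fin m) (u : J → R) (i : Fin m) (p : J) :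
    (colm j u) (some (i, p)) none = if i = j then u p else 0 := rfl
lemma colm_none_left (j : Fin m) (u : J → R) (y : Option (Fin m × J)) :
    (colm j u) none y = 0 := by cases y <;> rfl
lemma colm_some_right (j : Fin m) (u : J → R) (y : Option (Fin m × J)) (a : Fin m × J) :
    (colm j u) y (some a) = 0 := by cases y <;> rfl

lemma slot_eq_single (x : R) : slot (J := J) m x = Mt.single none none x := by
  ext a b
  rcases a with _ | a <;> rcases b with _ | b <;>
    simp [Mt.single_apply, slot_none_none, slot_some_left, slot_some_right]

lemma norm_slot_le (x : R) : ‖slot (J := J) m x‖ ≤ ‖x‖ := by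
  rw [slot_eq_single]; exact Mt.norm_single_le _ _ _

lemma slot_mul_slot (x y : R) : slot (J := J) m x * slot m y = slot m (x * y) := by
  rw [slot_eq_single, slot_eq_single, slot_eq_single, Mt.single_mul_single]

lemma star_slot (x : R) : star (slot (J := J) m x) = slot m (star x) := by
  rw [slot_eq_single, slot_eq_single, Mt.star_single]

lemma slot_sub (x y : R) : slot (J := J) m (x - y) = slot m x - slot m y := by
  ext a b
  rcases a with _ | a <;> rcases b with _ | b <;>
    simp [slot_none_none, slot_some_left, slot_some_right]

lemma slot_mul_blk (x : R) (j : Fin m) (a : CStarMatrix J J ℂ) :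
    slot m x * blk j a = 0 := by
  ext y z
  rw [Mt.mul_apply, Fintype.sum_option]
  simp [blk_none_left, slot_some_right]

lemma blk_mul_slot (x : R) (j : Fin m) (a : CStarMatrix J J ℂ) :
    blk j a * slot m x = 0 := by
  ext y z
  rw [Mt.mul_apply, Fintype.sum_option]
  simp [blk_none_right, slot_some_left]

lemma blk_mul_blk (j : Fin m) (a b : CStarMatrix J J ℂ) :
    blk (R := R) j a * blk j b = blk j (a * b) := by
  ext y z
  rw [Mt.mul_apply, Fintype.sum_option, Fintype.sum_prod_type]
  rcases y with _ | ⟨i, p⟩
  · simp [blk_none_left]
  rcases z with _ | ⟨k, q⟩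
  · simp [blk_none_right]
  rw [blk_none_right, zero_mul, zero_add, blk_some_some, Finset.sum_eq_single j]
  · simp only [blk_some_some, and_true, true_and]
    by_cases h1 : i = j <;> by_cases h2 : k = j <;> simp [h1, h2]
    rw [CStarMatrix.mul_apply, map_sum]
    simp
  · intro l _ hl
    refine Finset.sum_eq_zero fun r _ => ?_
    rw [blk_some_some, if_neg (fun h => hl h.2), zero_mul]
  · simp

lemma blk_mul_blk_ne {i j : Fin m} (h : i ≠ j) (a b : CStarMatrix J J ℂ) :
    blk (R := R) i a * blk j b = 0 := by
  ext y z
  rw [Mt.mul_apply, Fintype.sum_option, blk_none_right, zero_mul, zero_add]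
  refine Finset.sum_eq_zero fun l _ => ?_
  obtain ⟨l, r⟩ := l
  rcases y with _ | ⟨i', p⟩
  · simp [blk_none_left]
  rcases z with _ | ⟨k, q⟩
  · simp [blk_none_right]
  rw [blk_some_some, blk_some_some]
  by_cases h1 : l = i
  · rw [if_neg (c := l = j ∧ k = j) (fun h2 => h (h1.symm.trans h2.1)), mul_zero]
  · rw [if_neg (fun h2 => h1 h2.2), zero_mul]

lemma star_blk (j : Fin m) (a : CStarMatrix J J ℂ) :
    star (blk (R := R) j a) = blk j (star a) := by
  ext y z
  rw [Mt.star_apply]
  rcases y with _ | ⟨i, p⟩
  · simp [blk_none_left, blk_none_right]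
  rcases z with _ | ⟨k, q⟩
  · simp [blk_none_left, blk_none_right]
  rw [blk_some_some, blk_some_some, CStarMatrix.star_apply]
  by_cases h1 : i = j <;> by_cases h2 : k = j <;> simp [h1, h2]
  exact (algebraMap_star_comm (a q p)).symm

lemma slot_mul_colm (x : R) (j : Fin m) (u : J → R) : slot m x * colm j u = 0 := by
  ext y z
  rw [Mt.mul_apply, Fintype.sum_option]
  simp [colm_none_left, slot_some_right]

lemma blk_one_mul_colm (j : Fin m) (u : J → R) : blk j 1 * colm j u = colm j u := by
  ext y z
  rw [Mt.mul_apply, Fintype.sum_option, Fintype.sum_prod_type, blk_none_right, zero_mul, zero_add]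
  rcases y with _ | ⟨i, p⟩
  · simp [blk_none_left, colm_none_left]
  rcases z with _ | z
  swap
  · simp [colm_some_right]
  rw [colm_some_none, Finset.sum_eq_single j]
  · simp only [blk_some_some, colm_some_none, and_true, if_true]
    by_cases h1 : i = j
    · simp only [h1, if_true]
      rw [Finset.sum_eq_single p]
      · simp
      · intro q _ hq
        rw [CStarMatrix.one_apply_ne (Ne.symm hq)]; simp
      · simp
    · simp [h1]
  · intro l _ hl
    refine Finset.sum_eq_zero fun r _ => ?_
    rw [colm_some_none, if_neg hl, mul_zero]
  · simp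

lemma blk_mul_colm_ne {i j : Fin m} (h : i ≠ j) (a : CStarMatrix J J ℂ) (u : J → R) :
    blk i a * colm j u = 0 := by
  ext y z
  rw [Mt.mul_apply, Fintype.sum_option, blk_none_right, zero_mul, zero_add]
  refine Finset.sum_eq_zero fun l _ => ?_
  obtain ⟨l, r⟩ := l
  rcases y with _ | ⟨i', p⟩
  · simp [blk_none_left]
  rcases z with _ | z
  · rw [blk_some_some, colm_some_none]
    by_cases h1 : l = i
    · rw [if_neg (c := l = j) (fun h2 => h (h1.symm.trans h2)), mul_zero]
    · rw [if_neg (fun h2 => h1 h2.2), zero_mul]
  · simp [colm_some_right]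

lemma star_colm_mul_colm_ne {i j : Fin m} (h : i ≠ j) (u u' : J → R) :
    star (colm i u) * colm j u' = 0 := by
  ext y z
  rw [Mt.mul_apply, Fintype.sum_option, colm_none_left, mul_zero, zero_add]
  refine Finset.sum_eq_zero fun l _ => ?_
  obtain ⟨l, r⟩ := l
  rw [Mt.star_apply]
  rcases y with _ | y
  swap
  · simp [colm_some_right]
  rcases z with _ | z
  swap
  · simp [colm_some_right]
  rw [colm_some_none, colm_some_none]
  by_cases h1 : l = i
  · rw [if_neg (c := l = j) (fun h2 => h (h1.symm.trans h2)), mul_zero]
  · rw [if_neg h1, star_zero, zero_mul]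

end rules

/-- Conjugation by a self-adjoint unitary is contractive. -/
lemma norm_conj_le {A : Type} [CStarAlgebra A] {U : A} (h1 : star U = U) (h2 : U * U = 1) (x : A) :
    ‖U * x * U‖ ≤ ‖x‖ := by
  have hU : U ∈ unitary A := by
    rw [Unitary.mem_iff, h1]; exact ⟨h2, h2⟩
  rw [CStarRing.norm_mul_mem_unitary _ hU, CStarRing.norm_mem_unitary_mul _ hU]

theorem abs (hOrth : S_ORTH) (hSwap : S_SWAP) (hColv : S_COLV) : S_ABS := by
  intro B R _ _ m g J _ _ σ v F η δ hη _hδ hv hg hF
  -- notation
  let V : Fin m → Mt (Option (Fin m × J)) R := fun j => colm j fun p => g (j + 1) (v p)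
  let W : B → Fin m → Mt (Option (Fin m × J)) R := fun b j =>
    V j * slot m (g j b - g (j + 1) b) * star (V j)
  let T : ℕ → B → Mt (Option (Fin m × J)) R := fun n b =>
    slot m (g n b) + (∑ j : Fin m, blk j (σ b)) + ∑ j : Fin m, if (j : ℕ) < n then W b j else 0
  have hVV : ∀ j, star (V j) * V j = slot (J := J) m (1 : R) := fun j =>
    (hColv B R (g (j + 1)) J σ v m j 0 0 hv (by simp [qf]) (by simp [qf]) (by simp [qf])).1
  have hfV : ∀ j, blk j 1 * V j = V j := fun j => blk_one_mul_colm j _
  have hfV' : ∀ i j, i ≠ j → blk i 1 * V j = 0 := fun i j h => blk_mul_colm_ne h _ _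
  have hVf' : ∀ i j, i ≠ j → star (V j) * blk i 1 = 0 := by
    intro i j h
    have := congrArg star (hfV' i j h)
    rwa [star_mul, star_blk, star_one, star_zero] at this
  have heV : ∀ j, slot m (1 : R) * V j = 0 := fun j => slot_mul_colm _ _ _
  have hVe : ∀ j, star (V j) * slot m (1 : R) = 0 := by
    intro j
    have := congrArg star (heV j)
    rwa [star_mul, star_slot, star_one, star_zero] at this
  have claim : ∀ n, n ≤ m → ∃ w : Mt (Option (Fin m × J)) R, star w * w = 1 ∧ w * star w = 1 ∧
      ∀ b ∈ F, ‖w * amp m (g 0 b) (σ b) * star w - T n b‖ ≤ 6 * n * √(δ * (1 + 2 * ‖b‖)) := by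
    intro n
    induction n with
    | zero =>
      intro _
      refine ⟨1, by simp, by simp, fun b _ => ?_⟩
      simp [T, amp]
    | succ n ih =>
      intro hn
      obtain ⟨w, hw1, hw2, hw⟩ := ih (by omega)
      let jn : Fin m := ⟨n, by omega⟩
      let Vn := V jn
      let U : Mt (Option (Fin m × J)) R :=
        Vn + star Vn + (1 - slot m (1 : R) - Vn * star Vn)
      -- SWAP
      have swap : ∀ b ∈ F, star U = U ∧ U * U = 1 ∧
          ‖U * T n b * U - T (n + 1) b‖ ≤ 6 * √(δ * (1 + 2 * ‖b‖)) := by
        intro b hb
        obtain ⟨hb1, hb2, hb3, hb4⟩ := hF b hb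
        let r : Mt (Option (Fin m × J)) R :=
          (∑ j : Fin m, if j = jn then 0 else blk j (σ b)) +
            ∑ j : Fin m, if (j : ℕ) < n then W b j else 0
        have er : slot m (1 : R) * r = 0 := by
          simp only [r]
          rw [mul_add, Finset.mul_sum, Finset.mul_sum, Finset.sum_eq_zero, Finset.sum_eq_zero,
            add_zero]
          · intro j _
            split_ifs
            · simp only [W]; rw [← mul_assoc, ← mul_assoc, heV, zero_mul, zero_mul]
            · simp
          · intro j _
            split_ifs
            · simp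
            · exact slot_mul_blk _ _ _
        have re : r * slot m (1 : R) = 0 := by
          simp only [r]
          rw [add_mul, Finset.sum_mul, Finset.sum_mul, Finset.sum_eq_zero, Finset.sum_eq_zero,
            add_zero]
          · intro j _
            split_ifs
            · simp only [W]; rw [mul_assoc, hVe, mul_zero]
            · simp
          · intro j _
            split_ifs
            · simp
            · exact blk_mul_slot _ _ _
        have hne : ∀ j : Fin m, (j : ℕ) < n → jn ≠ j := by
          intro j hj h
          have := congrArg Fin.val h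
          simp only [jn] at this
          omega
        have fr : blk jn 1 * r = 0 := by
          simp only [r]
          rw [mul_add, Finset.mul_sum, Finset.mul_sum, Finset.sum_eq_zero, Finset.sum_eq_zero,
            add_zero]
          · intro j _
            split_ifs with hj
            · simp only [W]; rw [← mul_assoc, ← mul_assoc, hfV' _ _ (hne j hj), zero_mul, zero_mul]
            · simp
          · intro j _
            split_ifs with hj
            · simp
            · exact blk_mul_blk_ne (Ne.symm hj) _ _
        have rf : r * blk jn 1 = 0 := by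
          simp only [r]
          rw [add_mul, Finset.sum_mul, Finset.sum_mul, Finset.sum_eq_zero, Finset.sum_eq_zero,
            add_zero]
          · intro j _
            split_ifs with hj
            · simp only [W]; rw [mul_assoc, hVf' _ _ (hne j hj), mul_zero]
            · simp
          · intro j _
            split_ifs with hj
            · simp
            · exact blk_mul_blk_ne hj _ _
        have c1 := (hColv B R (g (n + 1)) J σ v m jn b δ hv hb1 hb2 hb3).2
        have c2 := (hColv B R (g (n + 1)) J σ v m jn (star b) δ hv hb2 (by rwa [star_star])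
          (by rwa [star_star])).2
        rw [norm_star] at c2
        have key := hSwap (Mt (Option (Fin m × J)) R) (slot m 1) (blk jn 1) Vn
          (slot m (g n b)) (slot m (g (n + 1) b)) (blk jn (σ b)) r (√(δ * (1 + 2 * ‖b‖)))
          (by rw [slot_mul_slot, one_mul]) (by rw [star_slot, star_one])
          (by rw [blk_mul_blk, one_mul]) (by rw [star_blk, star_one])
          (slot_mul_blk _ _ _) (hVV jn) (hfV jn)
          (by rw [slot_mul_slot, one_mul]) (by rw [slot_mul_slot, mul_one])
          (by rw [slot_mul_slot, one_mul]) (by rw [slot_mul_slot, mul_one])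
          (by rw [blk_mul_blk, one_mul]) (by rw [blk_mul_blk, mul_one]) er re fr rf c1
          (by rw [star_blk, star_slot, ← map_star, ← map_star]; exact c2)
        refine ⟨key.1, key.2.1, ?_⟩
        have t1 : T n b = slot m (g n b) + blk jn (σ b) + r := by
          have h : (∑ j : Fin m, blk j (σ b)) =
              blk (R := R) jn (σ b) + ∑ j : Fin m, if j = jn then 0 else blk j (σ b) := by
            have h2 : ∀ j : Fin m, blk (R := R) j (σ b) =
                (if j = jn then blk jn (σ b) else 0) + if j = jn then 0 else blk j (σ b) := by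
              intro j
              split_ifs with hj
              · rw [hj, add_zero]
              · rw [zero_add]
            conv_lhs => rw [Finset.sum_congr rfl fun j _ => h2 j]
            rw [Finset.sum_add_distrib, Finset.sum_ite_eq' Finset.univ jn]
            simp
          simp only [T, r]
          rw [h]; abel
        have t2 : T (n + 1) b = slot m (g (n + 1) b) + blk jn (σ b) +
            Vn * (slot m (g n b) - slot m (g (n + 1) b)) * star Vn + r := by
          have h : (∑ j : Fin m, blk j (σ b)) =
              blk (R := R) jn (σ b) + ∑ j : Fin m, if j = jn then 0 else blk j (σ b) := by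
            have h2 : ∀ j : Fin m, blk (R := R) j (σ b) =
                (if j = jn then blk jn (σ b) else 0) + if j = jn then 0 else blk j (σ b) := by
              intro j
              split_ifs with hj
              · rw [hj, add_zero]
              · rw [zero_add]
            conv_lhs => rw [Finset.sum_congr rfl fun j _ => h2 j]
            rw [Finset.sum_add_distrib, Finset.sum_ite_eq' Finset.univ jn]
            simp
          have h3 : (∑ j : Fin m, if (j : ℕ) < n + 1 then W b j else 0) =
              W b jn + ∑ j : Fin m, if (j : ℕ) < n then W b j else 0 := by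
            have h2 : ∀ j : Fin m, (if (j : ℕ) < n + 1 then W b j else 0) =
                (if j = jn then W b jn else 0) + if (j : ℕ) < n then W b j else 0 := by
              intro j
              by_cases hj : j = jn
              · subst hj
                simp [jn]
              · have h4 : (j : ℕ) ≠ n := fun h => hj (Fin.ext h)
                by_cases h5 : (j : ℕ) < n
                · simp [hj, h5, Nat.lt_succ_of_lt h5]
                · have h6 : ¬ (j : ℕ) < n + 1 := by omega
                  simp [hj, h5, h6]
            rw [Finset.sum_congr rfl fun j _ => h2 j, Finset.sum_add_distrib,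
              Finset.sum_ite_eq' Finset.univ jn]
            simp
          have h7 : W b jn = Vn * (slot m (g n b) - slot m (g (n + 1) b)) * star Vn := by
            simp only [W]
            rw [slot_sub]
          simp only [T, r]
          rw [h, h3, h7]; abel
        rw [t1, t2]
        exact key.2.2
      by_cases hFe : F.Nonempty
      · obtain ⟨b₀, hb₀⟩ := hFe
        obtain ⟨u1, u2, -⟩ := swap b₀ hb₀
        refine ⟨U * w, ?_, ?_, ?_⟩
        · rw [star_mul, u1, mul_assoc, ← mul_assoc U, u2, one_mul, hw1]
        · rw [star_mul, u1, mul_assoc, ← mul_assoc w, hw2, one_mul, u2]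
        · intro b hb
          have h1 : U * w * amp m (g 0 b) (σ b) * star (U * w) - T (n + 1) b =
              U * (w * amp m (g 0 b) (σ b) * star w - T n b) * U +
                (U * T n b * U - T (n + 1) b) := by
            rw [star_mul, u1]
            noncomm_ring
          rw [h1]
          refine (norm_add_le _ _).trans ?_
          have h2 := (norm_conj_le u1 u2 (w * amp m (g 0 b) (σ b) * star w - T n b)).trans (hw b hb)
          have h3 := (swap b hb).2.2
          push_cast
          linarith
      · refine ⟨w, hw1, hw2, fun b hb => absurd ⟨b, hb⟩ hFe⟩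
  obtain ⟨w, hw1, hw2, hw⟩ := claim m le_rfl
  refine ⟨w, hw1, hw2, fun b hb => ?_⟩
  have hV1 : ∀ j, ‖V j‖ ≤ 1 := by
    intro j
    have h1 : ‖V j‖ * ‖V j‖ ≤ 1 := by
      rw [← CStarRing.norm_star_mul_self, hVV]
      refine (norm_slot_le _).trans ?_
      rcases subsingleton_or_nontrivial R with hR | hR
      · rw [Subsingleton.elim (1 : R) 0, norm_zero]; exact zero_le_one
      · rw [CStarRing.norm_one]
    nlinarith [norm_nonneg (V j)]
  have hW : ‖∑ j : Fin m, W b j‖ ≤ η := by
    refine hOrth (Mt (Option (Fin m × J)) R) (Fin m) (W b) η hη ?_ ?_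
    · intro j
      have h1 := norm_mul_le (V j * slot m (g j b - g (j + 1) b)) (star (V j))
      have h2 := norm_mul_le (V j) (slot (J := J) m (g j b - g (j + 1) b))
      have h3 : ‖slot (J := J) m (g j b - g (j + 1) b)‖ ≤ η :=
        (norm_slot_le _).trans (hg b hb j j.2)
      rw [norm_star] at h1
      have h4 := hV1 j
      have h5 := norm_nonneg (V j)
      have h6 := norm_nonneg (slot (J := J) m (g j b - g (j + 1) b))
      have h7 : ‖V j * slot m (g j b - g (j + 1) b)‖ ≤ η := h2.trans (by nlinarith)
      exact h1.trans (by nlinarith [norm_nonneg (V j * slot m (g j b - g (j + 1) b))])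
    · intro i j hij
      have hVij : star (V i) * V j = 0 := star_colm_mul_colm_ne hij _ _
      simp only [W]
      constructor
      · rw [star_mul, star_mul, star_star]
        have : V i * (star (slot m (g i b - g (i + 1) b)) * star (V i)) *
            (V j * slot m (g j b - g (j + 1) b) * star (V j)) =
            V i * star (slot m (g i b - g (i + 1) b)) * (star (V i) * V j) *
              (slot m (g j b - g (j + 1) b) * star (V j)) := by
          simp only [mul_assoc]
        rw [this, hVij]; simp
      · rw [star_mul, star_mul, star_star]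
        have : V i * slot m (g i b - g (i + 1) b) * star (V i) *
            (V j * (star (slot m (g j b - g (j + 1) b)) * star (V j))) =
            V i * slot m (g i b - g (i + 1) b) * (star (V i) * V j) *
              (star (slot m (g j b - g (j + 1) b)) * star (V j)) := by
          simp only [mul_assoc]
        rw [this, hVij]; simp
  have hT : T m b = amp m (g m b) (σ b) + ∑ j : Fin m, W b j := by
    simp only [T, amp]
    congr 1
    refine Finset.sum_congr rfl fun j _ => ?_
    rw [if_pos j.2]
  have h1 : w * amp m (g 0 b) (σ b) * star w - amp m (g m b) (σ b) =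
      (w * amp m (g 0 b) (σ b) * star w - T m b) + ∑ j : Fin m, W b j := by
    rw [hT]; abel
  rw [h1]
  refine (norm_add_le _ _).trans ?_
  have := hw b hb
  linarith

end Pool.Agent.Helper98.CAR
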